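import Mathlib

namespace Pool.Agent.P.MP_d900b7_an

open scoped ENNReal

universe u

/-- The Banach-Mazur distance: the infimum of `‖T‖ ‖T⁻¹‖` over all isomorphisms `T` onto. -/
noncomputable def bmDist (Y Z : Type u) [NormedAddCommGroup Y] [NormedSpace ℝ Y]
    [NormedAddCommGroup Z] [NormedSpace ℝ Z] : ℝ≥0∞ :=
  ⨅ T : Y ≃L[ℝ] Z, ‖(T : Y →L[ℝ] Z)‖ₑ * ‖(T.symm : Z →L[ℝ] Y)‖ₑ

/-- The Banach-Mazur diameter: the supremum of the distances between two real Banach spaces
isomorphic to `X`. -/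
noncomputable def bmDiam (X : Type u) [NormedAddCommGroup X] [NormedSpace ℝ X] : ℝ≥0∞ :=
  ⨆ (Y : Type u) (_ : NormedAddCommGroup Y) (_ : NormedSpace ℝ Y) (_ : CompleteSpace Y)
    (_ : Nonempty (Y ≃L[ℝ] X))
    (Z : Type u) (_ : NormedAddCommGroup Z) (_ : NormedSpace ℝ Z) (_ : CompleteSpace Z)
    (_ : Nonempty (Z ≃L[ℝ] X)), bmDist Y Z

/-- A Kunen compact: a scattered nonmetrizable compact Hausdorff space `K` such that the dual of
`C(K)` is hereditarily separable in the weak-star topology and `C(K)` is hereditarily Lindelöf in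
the weak topology. -/
structure IsKunenCompact (K : Type u) [TopologicalSpace K] [CompactSpace K] [T2Space K] :
    Prop where
  scattered : ∀ L : Set K, IsClosed L → L.Nonempty → ∃ x ∈ L, ∃ U : Set K, IsOpen U ∧ U ∩ L = {x}
  nonmetrizable : ¬ TopologicalSpace.MetrizableSpace K
  dual_sep : ∀ S : Set (WeakDual ℝ C(K, ℝ)), TopologicalSpace.SeparableSpace S
  weak_lindelof : HereditarilyLindelofSpace (WeakSpace ℝ C(K, ℝ))

end Pool.Agent.P.MP_d900b7_an
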