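import Mathlib
import Pool.Agent.P.MP_d900b7_an.Defs

/-! The Banach-Mazur diameter of `C(K)` is infinite for infinite compact Hausdorff `K`. -/

namespace Pool.Agent.P.MP_d900b7_an

open scoped ENNReal
open Finset

universe u

/-- The sign attached to a Boolean. -/
def sg (b : Bool) : ℝ := if b then 1 else -1

lemma sg_sq (b : Bool) : sg b ^ 2 = 1 := by cases b <;> simp [sg]

/-- Riesz product identity. -/
lemma riesz {n : ℕ} (x : Fin n → ℝ) (i : Fin n) :
    ∑ e : Fin n → Bool, (sg (e i) : ℂ) * ∏ k, (1 + Complex.I * (sg (e k) * x k : ℝ)) =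
      2 ^ n * (Complex.I * x i) := by
  classical
  have h1 : ∀ e : Fin n → Bool, (sg (e i) : ℂ) * ∏ k, (1 + Complex.I * (sg (e k) * x k : ℝ)) =
      ∏ k, ((if k = i then (sg (e k) : ℂ) else 1) * (1 + Complex.I * (sg (e k) * x k : ℝ))) := by
    intro e
    rw [Finset.prod_mul_distrib]
    simp
  simp_rw [h1]
  have h2 := Finset.prod_univ_sum (fun _ : Fin n => (Finset.univ : Finset Bool))
    (fun k b => (if k = i then (sg b : ℂ) else 1) * (1 + Complex.I * (sg b * x k : ℝ)))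
  rw [Fintype.piFinset_univ] at h2
  rw [← h2]
  have h3 : ∀ k : Fin n, ∑ b : Bool, (if k = i then (sg b : ℂ) else 1) *
      (1 + Complex.I * (sg b * x k : ℝ)) = 2 * (if k = i then Complex.I * x i else 1) := by
    intro k
    by_cases hk : k = i
    · subst hk
      simp [sg]; ring
    · simp [sg, hk]; ring
  simp_rw [h3]
  rw [Finset.prod_mul_distrib]
  simp

lemma norm_riesz_le {n : ℕ} (x : Fin n → ℝ) (hx : ∑ k, x k ^ 2 ≤ 1) (e : Fin n → Bool) :
    ‖∏ k, (1 + Complex.I * (sg (e k) * x k : ℝ))‖ ≤ 2 := by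
  have h1 : ∀ k, ‖(1 + Complex.I * (sg (e k) * x k : ℝ) : ℂ)‖ ≤ Real.exp (x k ^ 2 / 2) := by
    intro k
    have h2 : ‖(1 + Complex.I * (sg (e k) * x k : ℝ) : ℂ)‖ ^ 2 = 1 + x k ^ 2 := by
      rw [Complex.sq_norm, Complex.normSq_apply]
      simp
      nlinarith [sg_sq (e k)]
    have h3 : Real.exp (x k ^ 2 / 2) ^ 2 = Real.exp (x k ^ 2) := by
      rw [← Real.exp_nat_mul]; congr 1; push_cast; ring
    have h4 : 1 + x k ^ 2 ≤ Real.exp (x k ^ 2) := by
      have := Real.add_one_le_exp (x k ^ 2); linarith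
    exact abs_le_of_sq_le_sq' (by rw [h2, h3]; exact h4) (Real.exp_pos _).le |>.2
  calc ‖∏ k, (1 + Complex.I * (sg (e k) * x k : ℝ))‖
      = ∏ k, ‖(1 + Complex.I * (sg (e k) * x k : ℝ) : ℂ)‖ := norm_prod _ _
    _ ≤ ∏ k, Real.exp (x k ^ 2 / 2) :=
        Finset.prod_le_prod (fun _ _ => norm_nonneg _) (fun k _ => h1 k)
    _ = Real.exp ((∑ k, x k ^ 2) / 2) := by rw [← Real.exp_sum, Finset.sum_div]
    _ ≤ Real.exp (1 / 2) := Real.exp_le_exp.2 (by linarith)
    _ ≤ 2 := by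
        have h : Real.exp (1 / 2) ^ 2 = Real.exp 1 := by
          rw [← Real.exp_nat_mul]; norm_num
        have h' := Real.exp_one_lt_d9
        exact abs_le_of_sq_le_sq' (by rw [h]; linarith) (by norm_num) |>.2

/-- A factorization of the identity of Euclidean `n`-space through `C(K)` costs `√n / 2`. -/
lemma factor_bound {K : Type u} [TopologicalSpace K] [CompactSpace K] {n : ℕ}
    (A : EuclideanSpace ℝ (Fin n) →L[ℝ] C(K, ℝ)) (B : C(K, ℝ) →L[ℝ] EuclideanSpace ℝ (Fin n))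
    (h : ∀ x, B (A x) = x) : Real.sqrt n ≤ 2 * (‖A‖ * ‖B‖) := by
  classical
  rcases Nat.eq_zero_or_pos n with rfl | hn
  · simp
  set a := ‖A‖ with ha
  have hapos : 0 < a := by
    rcases (norm_nonneg A).lt_or_eq with h0 | h0
    · exact h0
    · exfalso
      have hA : A = 0 := (ContinuousLinearMap.opNorm_zero_iff A).1 h0.symm
      have := h (EuclideanSpace.single ⟨0, hn⟩ 1)
      rw [hA] at this
      have h2 := congrArg (fun v : EuclideanSpace ℝ (Fin n) => v ⟨0, hn⟩) this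
      simp at h2
  let x : Fin n → C(K, ℝ) := fun k => a⁻¹ • A (EuclideanSpace.single k 1)
  have hx : ∀ t, ∑ k, x k t ^ 2 ≤ 1 := by
    intro t
    let v : EuclideanSpace ℝ (Fin n) := WithLp.toLp 2 fun k => x k t
    have hv : v = ∑ k, x k t • EuclideanSpace.single k (1 : ℝ) := by
      ext j
      simp [v, Pi.single_apply]
    have h1 : a⁻¹ * A v t = ∑ k, x k t ^ 2 := by
      rw [hv, map_sum]
      simp only [map_smul, ContinuousMap.coe_sum, Finset.sum_apply, ContinuousMap.smul_apply,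
        smul_eq_mul, Finset.mul_sum]
      refine Finset.sum_congr rfl fun k _ => ?_
      simp only [x, ContinuousMap.smul_apply, smul_eq_mul]
      ring
    have h2 : ‖v‖ ^ 2 = ∑ k, x k t ^ 2 := by
      rw [EuclideanSpace.real_norm_sq_eq]
    have h3 : A v t ≤ a * ‖v‖ :=
      (le_abs_self _).trans (((A v).norm_coe_le_norm t).trans (A.le_opNorm v))
    have h4 : a⁻¹ * A v t ≤ ‖v‖ := by
      rw [inv_mul_le_iff₀ hapos]; exact h3
    rw [h1, ← h2] at h4
    rw [← h2]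
    nlinarith [norm_nonneg v]
  let F : (Fin n → Bool) → C(K, ℝ) := fun e =>
    ⟨fun t => (∏ k, (1 + Complex.I * (sg (e k) * x k t : ℝ))).im, by fun_prop⟩
  have hF : ∀ e, ‖F e‖ ≤ 2 := by
    intro e
    refine (ContinuousMap.norm_le _ (by norm_num)).2 fun t => ?_
    exact (Complex.abs_im_le_norm _).trans (norm_riesz_le (fun k => x k t) (hx t) e)
  have hsum : ∀ i, ∑ e : Fin n → Bool, sg (e i) • F e = (2 : ℝ) ^ n • x i := by
    intro i
    ext t
    have := congrArg Complex.im (riesz (fun k => x k t) i)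
    simp only [ContinuousMap.coe_sum, Finset.sum_apply, ContinuousMap.smul_apply, smul_eq_mul]
    rw [Complex.im_sum] at this
    simp only [Complex.im_ofReal_mul] at this
    refine this.trans ?_
    have h2 : (2 : ℂ) ^ n = ((2 : ℝ) ^ n : ℝ) := by push_cast; rfl
    rw [h2, Complex.im_ofReal_mul]
    simp
  have hB : ∀ i, ∑ e : Fin n → Bool, sg (e i) * B (F e) i = (2 : ℝ) ^ n * a⁻¹ := by
    intro i
    have := congrArg (fun f => B f i) (hsum i)
    simp only [map_sum, map_smul, x, h] at this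
    simpa using this
  have hE : ∀ e : Fin n → Bool, ∑ i, sg (e i) * B (F e) i ≤ Real.sqrt n * (‖B‖ * 2) := by
    intro e
    let s : EuclideanSpace ℝ (Fin n) := WithLp.toLp 2 fun k => sg (e k)
    have hs : ‖s‖ = Real.sqrt n := by
      rw [EuclideanSpace.norm_eq]
      simp [s, sg_sq]
    have h1 : ∑ i, sg (e i) * B (F e) i = inner ℝ (B (F e)) s := by
      simp [s, PiLp.inner_apply]
    rw [h1, ← hs, mul_comm]
    refine (real_inner_le_norm _ _).trans ?_
    gcongr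
    exact (B.le_opNorm _).trans (by gcongr; exact hF e)
  have htot : (n : ℝ) * ((2 : ℝ) ^ n * a⁻¹) ≤ 2 ^ n * (Real.sqrt n * (‖B‖ * 2)) := by
    calc (n : ℝ) * ((2 : ℝ) ^ n * a⁻¹) = ∑ i : Fin n, ∑ e : Fin n → Bool, sg (e i) * B (F e) i := by
          simp [hB]
      _ = ∑ e : Fin n → Bool, ∑ i : Fin n, sg (e i) * B (F e) i := Finset.sum_comm
      _ ≤ ∑ e : Fin n → Bool, Real.sqrt n * (‖B‖ * 2) := Finset.sum_le_sum fun e _ => hE e
      _ = 2 ^ n * (Real.sqrt n * (‖B‖ * 2)) := by simp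
  have hsq : Real.sqrt n * Real.sqrt n = n := Real.mul_self_sqrt (by positivity)
  have hspos : 0 < Real.sqrt n := Real.sqrt_pos.2 (by exact_mod_cast hn)
  have h2n : (0 : ℝ) < 2 ^ n := by positivity
  have h5 : (n : ℝ) * a⁻¹ ≤ Real.sqrt n * (‖B‖ * 2) := by
    have : 2 ^ n * ((n : ℝ) * a⁻¹) ≤ 2 ^ n * (Real.sqrt n * (‖B‖ * 2)) := by linarith
    exact le_of_mul_le_mul_left this h2n
  have h6 : (n : ℝ) ≤ Real.sqrt n * (‖B‖ * 2) * a := by
    rwa [← div_eq_mul_inv, div_le_iff₀ hapos] at h5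
  have h7 : Real.sqrt n * Real.sqrt n ≤ Real.sqrt n * (2 * (a * ‖B‖)) := by
    rw [hsq]; linarith
  exact le_of_mul_le_mul_left h7 hspos

/-- Evaluation at `n` points has a continuous linear right inverse. -/
lemma exists_split (K : Type u) [TopologicalSpace K] [CompactSpace K] [T2Space K] [Infinite K]
    (n : ℕ) : ∃ (P : C(K, ℝ) →L[ℝ] EuclideanSpace ℝ (Fin n))
      (S : EuclideanSpace ℝ (Fin n) →L[ℝ] C(K, ℝ)), Function.RightInverse S P := by
  classical
  let t : Fin n → K := fun i => Infinite.natEmbedding K i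
  have ht : Function.Injective t := fun i j hij =>
    Fin.val_injective ((Infinite.natEmbedding K).injective hij)
  have hφ : ∀ i : Fin n, ∃ φ : C(K, ℝ), ∀ j, φ (t j) = if j = i then 1 else 0 := by
    intro i
    have hc : IsClosed (t '' {j | j ≠ i}) := ((Set.toFinite _).image _).isClosed
    have hd : Disjoint (t '' {j | j ≠ i}) {t i} := by
      rw [Set.disjoint_singleton_right]
      rintro ⟨j, hj, hji⟩
      exact hj (ht hji)
    obtain ⟨φ, h0, h1, -⟩ := exists_continuous_zero_one_of_isClosed hc isClosed_singleton hd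
    refine ⟨φ, fun j => ?_⟩
    by_cases hj : j = i
    · subst hj; simpa using h1 (Set.mem_singleton _)
    · simpa [hj] using h0 ⟨j, hj, rfl⟩
  choose φ hφ using hφ
  let P : C(K, ℝ) →L[ℝ] EuclideanSpace ℝ (Fin n) :=
    (EuclideanSpace.equiv (Fin n) ℝ).symm.toContinuousLinearMap ∘L
      ContinuousLinearMap.pi fun i => ContinuousMap.evalCLM ℝ (t i)
  let S : EuclideanSpace ℝ (Fin n) →L[ℝ] C(K, ℝ) :=
    ∑ i, (EuclideanSpace.proj i : EuclideanSpace ℝ (Fin n) →L[ℝ] ℝ).smulRight (φ i)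
  refine ⟨P, S, fun v => ?_⟩
  ext j
  simp [P, S, hφ]

lemma le_bmDist (K : Type u) [TopologicalSpace K] [CompactSpace K] (n : ℕ) (F : Type u)
    [NormedAddCommGroup F] [NormedSpace ℝ F] (r : NNReal) (hn : (2 * (r : ℝ)) ^ 2 ≤ n) :
    (r : ℝ≥0∞) ≤ bmDist (EuclideanSpace ℝ (Fin n) × F) C(K, ℝ) := by
  refine le_iInf fun T => ?_
  let T1 : (EuclideanSpace ℝ (Fin n) × F) →L[ℝ] C(K, ℝ) := T
  let T2 : C(K, ℝ) →L[ℝ] (EuclideanSpace ℝ (Fin n) × F) := T.symm
  let A : EuclideanSpace ℝ (Fin n) →L[ℝ] C(K, ℝ) := T1 ∘L ContinuousLinearMap.inl ℝ _ _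
  let B : C(K, ℝ) →L[ℝ] EuclideanSpace ℝ (Fin n) := ContinuousLinearMap.fst ℝ _ _ ∘L T2
  have h1 := factor_bound A B (fun x => by simp [A, B, T1, T2])
  have hA : ‖A‖ ≤ ‖T1‖ := by
    refine ContinuousLinearMap.opNorm_le_bound _ T1.opNorm_nonneg fun x => ?_
    refine (T1.le_opNorm _).trans (le_of_eq ?_)
    simp
  have hB : ‖B‖ ≤ ‖T2‖ := by
    refine ContinuousLinearMap.opNorm_le_bound _ T2.opNorm_nonneg fun x => ?_
    exact (norm_fst_le _).trans (T2.le_opNorm _)
  have h2 : 2 * (r : ℝ) ≤ Real.sqrt n := Real.le_sqrt_of_sq_le hn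
  have h3 : ‖A‖ * ‖B‖ ≤ ‖T1‖ * ‖T2‖ := by gcongr
  have h4 : (r : ℝ) ≤ ‖T1‖ * ‖T2‖ := by linarith
  change (r : ℝ≥0∞) ≤ ‖T1‖ₑ * ‖T2‖ₑ
  rw [enorm_eq_nnnorm, enorm_eq_nnnorm, ← ENNReal.coe_mul, ENNReal.coe_le_coe]
  exact_mod_cast h4

lemma bmDist_le_bmDiam (X Y : Type u) [NormedAddCommGroup X] [NormedSpace ℝ X] [CompleteSpace X]
    [NormedAddCommGroup Y] [NormedSpace ℝ Y] (E : X ≃L[ℝ] Y) : bmDist Y X ≤ bmDiam X := by
  have hY : CompleteSpace Y :=
    (E.symm.isUniformEmbedding.isUniformInducing.completeSpace_congr E.symm.surjective).2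
      inferInstance
  unfold bmDiam
  exact le_iSup_of_le Y (le_iSup_of_le inferInstance (le_iSup_of_le inferInstance
    (le_iSup_of_le hY (le_iSup_of_le ⟨E.symm⟩ (le_iSup_of_le X (le_iSup_of_le inferInstance
    (le_iSup_of_le inferInstance (le_iSup_of_le inferInstance
    (le_iSup_of_le ⟨ContinuousLinearEquiv.refl ℝ _⟩ le_rfl)))))))))

theorem bmDiam_eq_top (K : Type u) [TopologicalSpace K] [CompactSpace K] [T2Space K]
    [Infinite K] : bmDiam C(K, ℝ) = ⊤ := by
  refine ENNReal.eq_top_of_forall_nnreal_le fun r => ?_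
  obtain ⟨n, hn⟩ := exists_nat_ge ((2 * (r : ℝ)) ^ 2)
  obtain ⟨P, S, hPS⟩ := exists_split K n
  exact (le_bmDist K n P.ker r hn).trans
    (bmDist_le_bmDiam _ _ (ContinuousLinearEquiv.equivOfRightInverse P S hPS))

theorem infinite_of_kunen (K : Type u) [TopologicalSpace K] [CompactSpace K] [T2Space K]
    (h : IsKunenCompact K) : Infinite K := by
  by_contra hK
  rw [not_infinite_iff_finite] at hK
  exact h.nonmetrizable inferInstance

end Pool.Agent.P.MP_d900b7_an
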